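import Pool.Agent.TH97.ST.App
import Pool.Agent.TH54.BU.Iter

/-!
# MP_727953_al: groups all of whose Hausdorff [quasi]- and [semi]-topologies are discrete

Both questions have a negative answer, in every infinite cardinality.
-/

set_option autoImplicit false

open Topology Set Cardinal

namespace Pool.Agent.Results.MP_727953_al.DiscreteOnly

/-- The map `F : G × G → G` is separately continuous for the topology `τ` on `G`: it is continuous
in each variable when the other one is fixed. -/
def SeparatelyContinuous {G : Type} (τ : TopologicalSpace G) (F : G → G → G) : Prop :=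
  (∀ b : G, @Continuous G G τ τ fun x => F x b) ∧ (∀ a : G, @Continuous G G τ τ fun y => F a y)

/-- `(G, τ)` is a [quasi]-topological group: the maps `q(x,y) = x y⁻¹` and
`c(x,y) = x y x⁻¹ y⁻¹` are separately continuous. -/
def IsBracketQuasi (G : Type) [Group G] (τ : TopologicalSpace G) : Prop :=
  SeparatelyContinuous τ (fun x y : G => x * y⁻¹) ∧
    SeparatelyContinuous τ (fun x y : G => x * y * x⁻¹ * y⁻¹)

/-- `(G, τ)` is a [semi]-topological group: the maps `s(x,y) = x y` and
`c(x,y) = x y x⁻¹ y⁻¹` are separately continuous. -/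
def IsBracketSemi (G : Type) [Group G] (τ : TopologicalSpace G) : Prop :=
  SeparatelyContinuous τ (fun x y : G => x * y) ∧
    SeparatelyContinuous τ (fun x y : G => x * y * x⁻¹ * y⁻¹)

/-- a [quasi]-topological group is a [semi]-topological group -/
lemma IsBracketQuasi.semi {G : Type} [Group G] {τ : TopologicalSpace G}
    (h : IsBracketQuasi G τ) : IsBracketSemi G τ := by
  obtain ⟨⟨h1, h2⟩, h3⟩ := h
  have hinv : @Continuous G G τ τ fun y : G => y⁻¹ := by
    have h4 := h2 1
    simpa using h4
  refine ⟨⟨fun b => ?_, fun a => ?_⟩, h3⟩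
  · have h4 := h1 b⁻¹
    simpa using h4
  · have h4 := (h2 a).comp hinv
    have e : ((fun y : G => a * y⁻¹) ∘ fun y : G => y⁻¹) = fun y => a * y := by
      funext y
      simp
    rw [e] at h4
    exact h4

/-- **For every infinite set `I` there is a group `G` of the same cardinality (so `G` is countable
if `I` is countable) on which every `T₁` topology (in particular every Hausdorff topology) that
makes `G` a [semi]-topological group, or a [quasi]-topological group, is discrete.** -/
theorem result : ∀ (I : Type) [Infinite I], ∃ (G : Type) (_ : Group G), Nonempty (G ≃ I) ∧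
    ∀ τ : TopologicalSpace G, @T1Space G τ → (IsBracketQuasi G τ ∨ IsBracketSemi G τ) →
      τ = ⊥ := by
  intro I _
  obtain ⟨p0, hp0⟩ := Pool.Agent.TH54.BU.burnside
  obtain ⟨p, hple, hp⟩ := Nat.exists_infinite_primes (max p0 3)
  have hFp : Fact p.Prime := ⟨hp⟩
  have h2 : p ≠ 2 := by
    have := le_trans (le_max_right _ _) hple
    omega
  obtain ⟨H, _, ⟨D⟩, hH⟩ := Pool.Agent.TH97.ST.exists_alg hp
    (hp0 p hp (le_trans (le_max_left _ _) hple)) I
  have key : ∀ τ : TopologicalSpace (Pool.Agent.TH97.ST.Wr H p), @T1Space _ τ →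
      IsBracketSemi (Pool.Agent.TH97.ST.Wr H p) τ → τ = ⊥ := by
    intro τ hτ hs
    exact D.discrete h2 τ hs.1.2 hs.1.1 hs.2.1
  refine ⟨Pool.Agent.TH97.ST.Wr H p, inferInstance, Cardinal.eq.1 ?_, fun τ hτ h => ?_⟩
  · exact Pool.Agent.TH97.ST.mk_wr I hH
  · rcases h with h | h
    · exact key τ hτ h.semi
    · exact key τ hτ h

end Pool.Agent.Results.MP_727953_al.DiscreteOnly
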